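import Mathlib

/-!
# Certificates modulo `p ^ 2` for the maps `h(u) = u + 1 / u + τ`
-/

set_option autoImplicit false

namespace Pool.Agent.K6.H14.PG

/-- The orbit `A 0 = 1, A 1, ..., A (n + 1)` of `1` under `h(u) = u + 1 / u + τ` modulo `p ^ 2`: the
elements `A 0, ..., A n` are prime to `p`, the element `A (n + 1)` is divisible by `p` but not by
`p ^ 2`, and `A n` is not `1` or `-1` modulo `p`. -/
def CertA (p n : ℕ) (τ : ℤ) (A : ℕ → ℤ) : Prop :=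
  A 0 = 1 ∧ (∀ j < n + 1, ((p : ℤ) ^ 2 ∣ A (j + 1) * A j - (A j ^ 2 + τ * A j + 1)) ∧ ¬ (p : ℤ) ∣ A j) ∧
    ¬ (p : ℤ) ∣ A n ^ 2 - 1 ∧ (p : ℤ) ∣ A (n + 1) ∧ ¬ (p : ℤ) ^ 2 ∣ A (n + 1)

/-- The orbit `B 0 = -1, B 1, ..., B M` of `-1` under `h(u) = u + 1 / u + τ` modulo `p ^ 2`, and its
derivative `E` with respect to `τ` modulo `p`: the elements `B 0, ..., B M` are prime to `p`, and for the
number `n < M` one has `B M = B n` modulo `p ^ 2` and `E M ≠ E n` modulo `p`. -/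
def CertB (p n M : ℕ) (τ : ℤ) (B E : ℕ → ℤ) : Prop :=
  n < M ∧ B 0 = -1 ∧ E 0 = 0 ∧
    (∀ j < M, ((p : ℤ) ^ 2 ∣ B (j + 1) * B j - (B j ^ 2 + τ * B j + 1)) ∧
      ((p : ℤ) ∣ E (j + 1) * B j ^ 2 - ((B j ^ 2 - 1) * E j + B j ^ 2))) ∧
    (∀ j ≤ M, ¬ (p : ℤ) ∣ B j) ∧ (p : ℤ) ^ 2 ∣ B M - B n ∧ ¬ (p : ℤ) ∣ E M - E n

/-- The orbit `B 0 = -1, B 1, ..., B M` of `-1` under `h(u) = u + 1 / u + τ` modulo `p ^ 2`, and its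
derivative `E` with respect to `τ` modulo `p`: the elements `B 0, ..., B (M - 1)` are prime to `p`, and
`B M = 0` modulo `p ^ 2`, `E M ≠ 0` modulo `p`. -/
def CertB2 (p M : ℕ) (τ : ℤ) (B E : ℕ → ℤ) : Prop :=
  B 0 = -1 ∧ E 0 = 0 ∧
    (∀ j < M, ((p : ℤ) ^ 2 ∣ B (j + 1) * B j - (B j ^ 2 + τ * B j + 1)) ∧
      ((p : ℤ) ∣ E (j + 1) * B j ^ 2 - ((B j ^ 2 - 1) * E j + B j ^ 2))) ∧
    (∀ j < M, ¬ (p : ℤ) ∣ B j) ∧ (p : ℤ) ^ 2 ∣ B M ∧ ¬ (p : ℤ) ∣ E M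

/-- For some integer `τ` there is a certificate for the orbit of `1`, and one of the two kinds of
certificates for the orbit of `-1`. -/
def HasCert (p : ℕ) : Prop := ∃ (n : ℕ) (τ : ℤ) (A : ℕ → ℤ), CertA p n τ A ∧
  ((∃ (n' M : ℕ) (B E : ℕ → ℤ), CertB p n' M τ B E) ∨
    ∃ (M : ℕ) (B E : ℕ → ℤ), CertB2 p M τ B E)

end Pool.Agent.K6.H14.PG
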