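import Pool.Agent.K6.H14.PG.Stm
import Pool.Agent.Y955.PF.Iso

/-! # Piece B1 (by helper57, after helper90's PD/P_B1) -/

set_option autoImplicit false

namespace Pool.Agent.K6.H14.PG

open Pool.Agent.Y955.PF

namespace PB1

variable {p : ℕ} [Fact p.Prime]

lemma norm_of_close {x y : ℚ_[p]} (h : ‖x - y‖ < ‖y‖) : ‖x‖ = ‖y‖ := by
  have h1 : ‖(x - y) + y‖ = max ‖x - y‖ ‖y‖ := Padic.add_eq_max_of_ne (ne_of_lt h)
  rw [sub_add_cancel, max_eq_right h.le] at h1
  exact h1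

lemma norm_add_le' {x y : ℚ_[p]} {c : ℝ} (hx : ‖x‖ ≤ c) (hy : ‖y‖ ≤ c) : ‖x + y‖ ≤ c :=
  le_trans (Padic.nonarchimedean x y) (max_le hx hy)

lemma norm_sub_le' {x y : ℚ_[p]} {c : ℝ} (hx : ‖x‖ ≤ c) (hy : ‖y‖ ≤ c) : ‖x - y‖ ≤ c := by
  rw [sub_eq_add_neg]
  exact norm_add_le' hx (by rwa [norm_neg])

lemma norm_add_right {x y : ℚ_[p]} (h : ‖x‖ < ‖y‖) : ‖x + y‖ = ‖y‖ := by
  rw [Padic.add_eq_max_of_ne (ne_of_lt h), max_eq_right h.le]

lemma pinv_pos : (0 : ℝ) < (p : ℝ)⁻¹ := by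
  have := (Fact.out : p.Prime).pos
  positivity

lemma pinv_lt : (p : ℝ)⁻¹ < 1 := by
  have h := (Fact.out : p.Prime).one_lt
  exact inv_lt_one_of_one_lt₀ (by exact_mod_cast h)

lemma norm_mul_le_of {x y : ℚ_[p]} {a b : ℝ} (hx : ‖x‖ ≤ a) (hy : ‖y‖ ≤ b) :
    ‖x * y‖ ≤ a * b := by
  rw [norm_mul]
  exact mul_le_mul hx hy (norm_nonneg _) (le_trans (norm_nonneg _) hx)

end PB1

open PB1 in
theorem t_B1 : S_B1 := by
  intro p _ u t η b c hη hb hu0 hut hc hcb
  have hr0 : (0 : ℝ) < (p : ℝ)⁻¹ := pinv_pos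
  have hr1 : (p : ℝ)⁻¹ < 1 := pinv_lt
  set r : ℝ := (p : ℝ)⁻¹ with hr
  have h00 : ‖(0 : ℚ_[p])‖ ≤ r := by rw [norm_zero]; exact hr0.le
  have ht1 : ∀ a : ℚ_[p], ‖a‖ ≤ r → ‖t a‖ ≤ 1 := fun a ha => (hut a a ha ha).1
  have htd : ∀ a a' : ℚ_[p], ‖a‖ ≤ r → ‖a'‖ ≤ r → ‖t a - t a'‖ ≤ ‖a - a'‖ :=
    fun a a' ha ha' => (hut a a' ha ha').2.1
  have hu : ∀ a a' : ℚ_[p], ‖a‖ ≤ r → ‖a'‖ ≤ r →
      ‖u a - u a' - b * (a - a')‖ ≤ r * ‖a - a'‖ := fun a a' ha ha' => (hut a a' ha ha').2.2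
  have hrle : ∀ a a' : ℚ_[p], r * ‖a - a'‖ ≤ ‖a - a'‖ := by
    intro a a'
    nlinarith [norm_nonneg (a - a')]
  -- the difference of two values
  have hdiff : ∀ a a' : ℚ_[p], ‖a‖ ≤ r → ‖a'‖ ≤ r → ‖u a - u a'‖ ≤ ‖a - a'‖ := by
    intro a a' ha ha'
    have e : u a - u a' = (u a - u a' - b * (a - a')) + b * (a - a') := by ring
    rw [e]
    refine norm_add_le' (le_trans (hu a a' ha ha') (hrle a a')) ?_
    have := norm_mul_le_of (p := p) hb (le_refl ‖a - a'‖)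
    rwa [one_mul] at this
  have hule : ∀ a : ℚ_[p], ‖a‖ ≤ r → ‖u a‖ ≤ r := by
    intro a ha
    have e : u a = (u a - u 0) + η := by rw [hu0]; ring
    rw [e]
    refine norm_add_le' (le_trans (hdiff a 0 ha h00) ?_) hη.le
    rw [sub_zero]; exact ha
  -- the denominator
  set e : ℚ_[p] → ℚ_[p] := fun a => u a ^ 2 + t a * u a + 1 with he
  have he1 : ∀ a : ℚ_[p], ‖a‖ ≤ r → ‖e a - 1‖ ≤ r := by
    intro a ha
    have e1 : e a - 1 = (u a + t a) * u a := by simp only [he]; ring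
    rw [e1]
    have h1 : ‖u a + t a‖ ≤ 1 := norm_add_le' ((hule a ha).trans hr1.le) (ht1 a ha)
    have := norm_mul_le_of h1 (hule a ha)
    rwa [one_mul] at this
  have hen : ∀ a : ℚ_[p], ‖a‖ ≤ r → ‖e a‖ = 1 := by
    intro a ha
    have h1 : ‖e a‖ = ‖(1 : ℚ_[p])‖ := norm_of_close (by
      rw [norm_one]; exact lt_of_le_of_lt (he1 a ha) hr1)
    rw [h1, norm_one]
  have hed : ∀ a a' : ℚ_[p], ‖a‖ ≤ r → ‖a'‖ ≤ r → ‖e a - e a'‖ ≤ ‖a - a'‖ := by
    intro a a' ha ha'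
    have e1 : e a - e a' = (u a - u a') * (u a + u a' + t a) + (t a - t a') * u a' := by
      simp only [he]; ring
    rw [e1]
    refine norm_add_le' ?_ ?_
    · have h1 : ‖u a + u a' + t a‖ ≤ 1 := norm_add_le' (norm_add_le'
        ((hule a ha).trans hr1.le) ((hule a' ha').trans hr1.le)) (ht1 a ha)
      have := norm_mul_le_of (hdiff a a' ha ha') h1
      rwa [mul_one] at this
    · have := norm_mul_le_of (htd a a' ha ha') ((hule a' ha').trans hr1.le)
      rwa [mul_one] at this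
  -- the function Φ
  set Φ : ℚ_[p] → ℚ_[p] := fun a => u a - c * a * e a with hΦ
  have hbc : ‖b - c‖ = 1 := by rw [← norm_neg, neg_sub]; exact hcb
  have hΦiso : ∀ x y : ℚ_[p], ‖x - 0‖ ≤ r → ‖y - 0‖ ≤ r → ‖Φ x - Φ y‖ = 1 * ‖x - y‖ := by
    intro x y hx hy
    rw [sub_zero] at hx hy
    rw [one_mul]
    rcases eq_or_ne x y with rfl | hne
    · simp
    have hpos : 0 < ‖x - y‖ := norm_pos_iff.2 (sub_ne_zero.2 hne)
    have e1 : Φ x - Φ y = ((u x - u y - b * (x - y)) - (c * (x - y)) * (e x - 1) -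
        (c * y) * (e x - e y)) + (b - c) * (x - y) := by
      simp only [hΦ]; ring
    have h2 : ‖(b - c) * (x - y)‖ = ‖x - y‖ := by rw [norm_mul, hbc, one_mul]
    rw [e1, norm_add_right, h2]
    rw [h2]
    refine lt_of_le_of_lt (b := r * ‖x - y‖) ?_ (by nlinarith)
    refine norm_sub_le' (norm_sub_le' (hu x y hx hy) ?_) ?_
    · have h3 : ‖c * (x - y)‖ ≤ ‖x - y‖ := by rw [norm_mul, hc, one_mul]
      exact (norm_mul_le_of h3 (he1 x hx)).trans (le_of_eq (mul_comm _ _))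
    · have h3 : ‖c * y‖ ≤ r := by rw [norm_mul, hc, one_mul]; exact hy
      exact norm_mul_le_of h3 (hed x y hx hy)
  obtain ⟨k₀, hk₀, hΦk₀⟩ := iso p Φ 0 r 1 hr0 one_pos hΦiso 0 (by
    rw [one_mul, zero_sub, norm_neg]
    have e1 : Φ 0 = η := by simp only [hΦ, hu0]; ring
    rw [e1, hη])
  rw [sub_zero] at hk₀
  have hΦ0 : u k₀ = c * k₀ * e k₀ := by
    simp only [hΦ] at hΦk₀
    linear_combination hΦk₀
  have hn₀ : ‖k₀‖ = r := by
    have h1 := hΦiso 0 k₀ (by rw [sub_zero]; exact h00) (by rw [sub_zero]; exact hk₀)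
    have e1 : Φ 0 = η := by simp only [hΦ, hu0]; ring
    rw [hΦk₀, e1, sub_zero, one_mul, zero_sub, norm_neg, hη] at h1
    exact h1.symm
  have hu₀ : ‖u k₀‖ = r := by
    rw [hΦ0, norm_mul, norm_mul, hc, hen k₀ hk₀, one_mul, mul_one, hn₀]
  have hk₀0 : k₀ ≠ 0 := by
    intro h; rw [h, norm_zero] at hn₀; exact hr0.ne hn₀
  have he₀0 : e k₀ ≠ 0 := by
    intro h
    have := hen k₀ hk₀
    rw [h, norm_zero] at this; exact zero_ne_one this
  have hρ : r * r < r := by nlinarith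
  -- facts on the small ball
  have hin : ∀ a : ℚ_[p], ‖a - k₀‖ ≤ r * r → ‖a‖ ≤ r := by
    intro a ha
    have e1 : a = (a - k₀) + k₀ := by ring
    rw [e1]
    exact norm_add_le' (le_trans ha hρ.le) hk₀
  have hkn : ∀ a : ℚ_[p], ‖a - k₀‖ ≤ r * r → ‖a‖ = r := by
    intro a ha
    rw [← hn₀]
    refine norm_of_close (lt_of_le_of_lt ha ?_)
    rw [hn₀]; exact hρ
  have huc : ∀ a : ℚ_[p], ‖a - k₀‖ ≤ r * r → ‖u a - u k₀‖ ≤ r * r := by
    intro a ha
    exact le_trans (hdiff a k₀ (hin a ha) hk₀) ha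
  have hun : ∀ a : ℚ_[p], ‖a - k₀‖ ≤ r * r → ‖u a‖ = r := by
    intro a ha
    rw [← hu₀]
    refine norm_of_close (lt_of_le_of_lt (huc a ha) ?_)
    rw [hu₀]; exact hρ
  refine ⟨k₀, hn₀, ?_, ?_⟩
  · show u k₀ / (k₀ * e k₀) = c
    rw [div_eq_iff (mul_ne_zero hk₀0 he₀0)]
    rw [hΦ0]; ring
  · intro a a' ha ha'
    refine ⟨hun a ha, ?_⟩
    have hA := hin a ha
    have hA' := hin a' ha'
    have ha0 : a ≠ 0 := by
      intro h
      have := hkn a ha
      rw [h, norm_zero] at this; exact hr0.ne this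
    have ha0' : a' ≠ 0 := by
      intro h
      have := hkn a' ha'
      rw [h, norm_zero] at this; exact hr0.ne this
    have hea : e a ≠ 0 := by
      intro h
      have := hen a hA
      rw [h, norm_zero] at this; exact zero_ne_one this
    have hea' : e a' ≠ 0 := by
      intro h
      have := hen a' hA'
      rw [h, norm_zero] at this; exact zero_ne_one this
    show ‖u a / (a * e a) - u a' / (a' * e a')‖ = ‖a - a'‖ / r
    rcases eq_or_ne a a' with rfl | hne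
    · simp
    have hpos : 0 < ‖a - a'‖ := norm_pos_iff.2 (sub_ne_zero.2 hne)
    -- u' - c k' is small
    have hac : ‖u a' - c * a'‖ ≤ r * r := by
      have e3 : u a' - c * a' = ((u a' - u k₀) - c * (a' - k₀)) + (c * k₀) * (e k₀ - 1) := by
        linear_combination hΦ0
      rw [e3]
      refine norm_add_le' (norm_sub_le' (huc a' ha') ?_) ?_
      · rw [norm_mul, hc, one_mul]; exact ha'
      · have h3 : ‖c * k₀‖ ≤ r := by rw [norm_mul, hc, one_mul]; exact hk₀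
        exact norm_mul_le_of h3 (he1 k₀ hk₀)
    -- the numerator
    have hnum : u a / (a * e a) - u a' / (a' * e a') =
        ((u a' * a') * (e a' - e a) + ((u a - u a' - b * (a - a')) * a') * e a' +
          (a - a') * ((b * a') * (e a' - 1) - u a' * (e a - 1) - (u a' - c * a')) +
          (a - a') * ((b - c) * a')) / ((a * e a) * (a' * e a')) := by
      rw [div_sub_div _ _ (mul_ne_zero ha0 hea) (mul_ne_zero ha0' hea')]
      congr 1
      ring
    have hden : ‖(a * e a) * (a' * e a')‖ = r * r := by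
      simp only [norm_mul, hkn a ha, hkn a' ha', hen a hA, hen a' hA', mul_one]
    have hbig : ‖(a - a') * ((b - c) * a')‖ = ‖a - a'‖ * r := by
      rw [norm_mul, norm_mul, hbc, hkn a' ha', one_mul]
    have hsmall : ‖(u a' * a') * (e a' - e a) + ((u a - u a' - b * (a - a')) * a') * e a' +
          (a - a') * ((b * a') * (e a' - 1) - u a' * (e a - 1) - (u a' - c * a'))‖ ≤
        ‖a - a'‖ * (r * r) := by
      refine norm_add_le' (norm_add_le' ?_ ?_) ?_
      · have h1 := norm_mul_le_of (norm_mul_le_of (hule a' hA') hA') (hed a' a hA' hA)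
        rw [norm_sub_rev a' a] at h1
        exact h1.trans (le_of_eq (mul_comm _ _))
      · have h1 := norm_mul_le_of (norm_mul_le_of (hu a a' hA hA') hA') (hen a' hA').le
        calc _ ≤ r * ‖a - a'‖ * r * 1 := h1
          _ = ‖a - a'‖ * (r * r) := by ring
      · refine norm_mul_le_of le_rfl ?_
        refine norm_sub_le' (norm_sub_le' ?_ ?_) hac
        · have h1 : ‖b * a'‖ ≤ r := by
            have := norm_mul_le_of hb hA'
            rwa [one_mul] at this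
          exact norm_mul_le_of h1 (he1 a' hA')
        · exact norm_mul_le_of (hule a' hA') (he1 a hA)
    rw [hnum, norm_div, hden, norm_add_right, hbig]
    · field_simp
    · rw [hbig]
      refine lt_of_le_of_lt hsmall ?_
      exact mul_lt_mul_of_pos_left hρ hpos

end Pool.Agent.K6.H14.PG
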