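import Pool.Agent.K6.H14.PG.Stm

/-!
# Certificates for the orbit of `1` (helper66)
-/

set_option autoImplicit false

namespace Pool.Agent.K6.H14.PG

theorem t_CA : S_CA := by
  rintro p _ n τ A ⟨hA0, hA, hAn, hd, hd2⟩ τ' hτ
  have hpP : p.Prime := Fact.out
  have hp1 : (1:ℝ) < p := by exact_mod_cast hpP.one_lt
  obtain ⟨r, hr⟩ : ∃ r : ℝ, r = (p:ℝ)⁻¹ := ⟨_, rfl⟩
  rw [← hr] at hτ
  have hr0 : 0 < r := by rw [hr]; positivity
  have hr1 : r < 1 := by rw [hr]; exact inv_lt_one_of_one_lt₀ hp1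
  have hr2 : r ^ 2 < r := by nlinarith
  have hr21 : r ^ 2 < 1 := hr2.trans hr1
  have na : ∀ (u v : ℚ_[p]) (s : ℝ), ‖u‖ ≤ s → ‖v‖ ≤ s → ‖u + v‖ ≤ s := fun u v s hu hv =>
    (IsUltrametricDist.norm_add_le_max u v).trans (max_le hu hv)
  have ns : ∀ (u v : ℚ_[p]) (s : ℝ), ‖u‖ ≤ s → ‖v‖ ≤ s → ‖u - v‖ ≤ s := fun u v s hu hv => by
    rw [sub_eq_add_neg]; exact na _ _ _ hu (by rwa [norm_neg])
  have eq1 : ∀ (u v : ℚ_[p]), ‖v - u‖ < ‖u‖ → ‖v‖ = ‖u‖ := by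
    intro u v h
    have h1 : v = u + (v - u) := by ring
    rw [h1, IsUltrametricDist.norm_add_eq_max_of_norm_ne_norm h.ne', max_eq_left h.le]
  have hi1 : ∀ z : ℤ, ‖(z : ℚ_[p])‖ ≤ 1 := fun z => Padic.norm_int_le_one z
  have hunit : ∀ z : ℤ, ¬ (p : ℤ) ∣ z → ‖(z : ℚ_[p])‖ = 1 := by
    intro z hz
    refine le_antisymm (hi1 z) ?_
    by_contra hlt
    exact hz (Padic.norm_intCast_lt_one_iff.1 (not_le.1 hlt))
  have hpp : ‖(p : ℚ_[p])‖ = r := by rw [Padic.norm_p, hr]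
  have hdvd2 : ∀ z : ℤ, (p : ℤ) ^ 2 ∣ z → ‖(z : ℚ_[p])‖ ≤ r ^ 2 := by
    rintro _ ⟨w, rfl⟩
    push_cast
    rw [norm_mul, norm_pow, hpp]
    calc r ^ 2 * ‖(w : ℚ_[p])‖ ≤ r ^ 2 * 1 := by gcongr; exact hi1 w
      _ = r ^ 2 := mul_one _
  have hVs : ∀ j, V 0 τ' (1 : ℚ_[p]) (j + 1) = H τ' (V 0 τ' (1 : ℚ_[p]) j) := by
    intro j
    change Γ 0 τ' (V 0 τ' (1 : ℚ_[p]) j) = _
    simp [Γ]
  have hτ1 : ‖τ'‖ ≤ 1 := by
    have h1 : τ' = (τ : ℚ_[p]) + (τ' - τ) := by ring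
    rw [h1]
    exact na _ _ _ (hi1 τ) (hτ.trans hr21.le)
  have key : ∀ j, j ≤ n + 1 → ‖V 0 τ' (1 : ℚ_[p]) j - (A j : ℚ_[p])‖ ≤ r ^ 2 := by
    intro j
    induction j with
    | zero =>
      intro _
      rw [hA0]
      simp [V]
      positivity
    | succ j ih =>
      intro hj
      have h1 := ih (by omega)
      obtain ⟨h2, h3⟩ := hA j (by omega)
      have hAj := hunit _ h3
      generalize hv : V 0 τ' (1 : ℚ_[p]) j = v at h1
      have hvj : ‖v‖ = 1 := by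
        rw [← hAj]
        exact eq1 _ _ (by rw [hAj]; exact h1.trans_lt hr21)
      have hv0 : v ≠ 0 := fun h => by rw [h, norm_zero] at hvj; exact zero_ne_one hvj
      have ha0 : (A j : ℚ_[p]) ≠ 0 := fun h => by rw [h, norm_zero] at hAj; exact zero_ne_one hAj
      have h4 := hdvd2 _ h2
      push_cast at h4
      rw [hVs, hv, H]
      have e : (v ^ 2 + τ' * v + 1) / v - (A (j + 1) : ℚ_[p]) =
          (v * A j * (v - A j) + (τ' - τ) * (v * A j) - (v - A j) -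
            ((A (j + 1) : ℚ_[p]) * A j - (A j ^ 2 + τ * A j + 1)) * v) / (v * A j) := by
        field_simp
        ring
      rw [e, norm_div, norm_mul v, hvj, hAj, mul_one, div_one]
      refine ns _ _ _ (ns _ _ _ (na _ _ _ ?_ ?_) h1) ?_
      · rw [norm_mul, norm_mul, hvj, hAj, one_mul, one_mul]
        exact h1
      · rw [norm_mul, norm_mul, hvj, hAj, mul_one, mul_one]
        exact hτ
      · rw [norm_mul, hvj, mul_one]
        exact h4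
  have hunitV : ∀ j < n + 1, ‖V 0 τ' (1 : ℚ_[p]) j‖ = 1 := by
    intro j hj
    have h1 := hunit _ (hA j hj).2
    rw [← h1]
    exact eq1 _ _ (by rw [h1]; exact (key j (by omega)).trans_lt hr21)
  refine ⟨hτ1, hunitV, ?_, ?_⟩
  · have h1 := hunit _ hAn
    push_cast at h1
    rw [← h1]
    refine eq1 _ _ ?_
    rw [h1]
    have e : V 0 τ' (1 : ℚ_[p]) n ^ 2 - 1 - ((A n : ℚ_[p]) ^ 2 - 1) =
        (V 0 τ' (1 : ℚ_[p]) n - A n) * (V 0 τ' (1 : ℚ_[p]) n + A n) := by ring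
    rw [e, norm_mul]
    have h2 := key n (by omega)
    have h3 : ‖V 0 τ' (1 : ℚ_[p]) n + A n‖ ≤ 1 := na _ _ _ (hunitV n (by omega)).le (hi1 _)
    calc ‖V 0 τ' (1 : ℚ_[p]) n - A n‖ * ‖V 0 τ' (1 : ℚ_[p]) n + A n‖ ≤ r ^ 2 * 1 := by gcongr
      _ < 1 := by rw [mul_one]; exact hr21
  · obtain ⟨w, hw⟩ := hd
    have hpw : ¬ (p : ℤ) ∣ w := by
      rintro ⟨w', hw'⟩
      apply hd2
      rw [hw, hw']
      exact ⟨w', by ring⟩
    have h1 : ‖(A (n + 1) : ℚ_[p])‖ = r := by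
      rw [hw]
      push_cast
      rw [norm_mul, hpp, hunit _ hpw, mul_one]
    rw [← hr, ← h1]
    refine eq1 _ _ ?_
    rw [h1]
    exact (key (n + 1) le_rfl).trans_lt hr2

end Pool.Agent.K6.H14.PG
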