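import Pool.Agent.K6.H14.PG.Stm

/-!
# Piece CB (helper1): the certificate for the orbit of `-1`
-/

set_option autoImplicit false

namespace Pool.Agent.K6.H14.PG

namespace CB

variable {p : ℕ} [hp : Fact p.Prime]

theorem add_le {a b : ℚ_[p]} {c : ℝ} (ha : ‖a‖ ≤ c) (hb : ‖b‖ ≤ c) : ‖a + b‖ ≤ c :=
  (Padic.nonarchimedean a b).trans (max_le ha hb)

theorem sub_le {a b : ℚ_[p]} {c : ℝ} (ha : ‖a‖ ≤ c) (hb : ‖b‖ ≤ c) : ‖a - b‖ ≤ c := by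
  rw [sub_eq_add_neg]
  exact add_le ha (by rwa [norm_neg])

theorem eq_one {a b : ℚ_[p]} (h : ‖a - b‖ < 1) (hb : ‖b‖ = 1) : ‖a‖ = 1 := by
  have h1 : a = (a - b) + b := by ring
  rw [h1, Padic.add_eq_max_of_ne (by rw [hb]; exact h.ne), hb]
  exact max_eq_right h.le

theorem int_one {z : ℤ} (h : ¬ (p : ℤ) ∣ z) : ‖(z : ℚ_[p])‖ = 1 :=
  le_antisymm (Padic.norm_int_le_one z) (not_lt.1 fun h1 => h (Padic.norm_intCast_lt_one_iff.1 h1))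

theorem int_r {z : ℤ} (h : (p : ℤ) ∣ z) : ‖(z : ℚ_[p])‖ ≤ (p : ℝ)⁻¹ := by
  have h1 := (Padic.norm_int_le_pow_iff_dvd (p := p) z 1).2 (by simpa using h)
  simpa using h1

theorem int_r2 {z : ℤ} (h : (p : ℤ) ^ 2 ∣ z) : ‖(z : ℚ_[p])‖ ≤ (p : ℝ)⁻¹ ^ 2 := by
  have h1 := (Padic.norm_int_le_pow_iff_dvd (p := p) z 2).2 h
  rw [zpow_neg] at h1
  rw [inv_pow]
  exact_mod_cast h1

theorem r_pos : 0 < (p : ℝ)⁻¹ := inv_pos.2 (by exact_mod_cast hp.1.pos)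

theorem r_lt : (p : ℝ)⁻¹ < 1 := inv_lt_one_of_one_lt₀ (by exact_mod_cast hp.1.one_lt)

theorem r2_le : (p : ℝ)⁻¹ ^ 2 ≤ (p : ℝ)⁻¹ := by
  rw [pow_two]
  exact mul_le_of_le_one_left (r_pos (p := p)).le (r_lt (p := p)).le

theorem mul_le_left {a b : ℚ_[p]} {c : ℝ} (ha : ‖a‖ ≤ c) (hb : ‖b‖ ≤ 1) : ‖a * b‖ ≤ c := by
  rw [norm_mul]
  exact (mul_le_of_le_one_right (norm_nonneg _) hb).trans ha

theorem mul_le_right {a b : ℚ_[p]} {c : ℝ} (ha : ‖a‖ ≤ 1) (hb : ‖b‖ ≤ c) : ‖a * b‖ ≤ c := by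
  rw [mul_comm]; exact mul_le_left hb ha

/-- One step of the orbit. -/
theorem step {v b b' τ e : ℚ_[p]} {c : ℝ} (hv : ‖v‖ = 1) (hb : ‖b‖ = 1) (hvb : ‖v - b‖ ≤ c)
    (he : ‖e‖ ≤ c) (h : b' * b - (b ^ 2 + τ * b + 1) = e) : ‖Γ 0 τ v - b'‖ ≤ c := by
  have hv0 : v ≠ 0 := norm_ne_zero_iff.1 (by rw [hv]; exact one_ne_zero)
  have hb0 : b ≠ 0 := norm_ne_zero_iff.1 (by rw [hb]; exact one_ne_zero)
  have h1 : Γ 0 τ v = (v ^ 2 + τ * v + 1) / v := by simp [Γ, H]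
  have h2 : Γ 0 τ v - b' = ((v - b) * (v * b - 1) - e * v) / (v * b) := by
    rw [h1, ← h]
    field_simp
    ring
  rw [h2, norm_div, norm_mul v b, hv, hb, mul_one, div_one]
  refine sub_le (mul_le_left hvb (sub_le ?_ ?_)) (mul_le_left he hv.le)
  · rw [norm_mul, hv, hb, mul_one]
  · rw [norm_one]

/-- One step of the derivative. -/
theorem stepD {v b D E E' e : ℚ_[p]} {c : ℝ} (hv : ‖v‖ = 1) (hb : ‖b‖ = 1) (hvb : ‖v - b‖ ≤ c)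
    (he : ‖e‖ ≤ c) (hD : ‖D - E‖ ≤ c) (hE : ‖E‖ ≤ 1)
    (h : E' * b ^ 2 - ((b ^ 2 - 1) * E + b ^ 2) = e) :
    ‖((1 - 1 / v ^ 2) * D + 1) - E'‖ ≤ c := by
  have hv0 : v ≠ 0 := norm_ne_zero_iff.1 (by rw [hv]; exact one_ne_zero)
  have hb0 : b ≠ 0 := norm_ne_zero_iff.1 (by rw [hb]; exact one_ne_zero)
  have h2 : ((1 - 1 / v ^ 2) * D + 1) - E' =
      ((D - E) * ((v ^ 2 - 1) * b ^ 2) + (v - b) * ((v + b) * E) - e * v ^ 2) / (v ^ 2 * b ^ 2) := by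
    rw [← h]
    field_simp
    ring
  have hv2 : ‖v ^ 2‖ = 1 := by rw [norm_pow, hv, one_pow]
  have hb2 : ‖b ^ 2‖ = 1 := by rw [norm_pow, hb, one_pow]
  rw [h2, norm_div, norm_mul (v ^ 2) (b ^ 2), hv2, hb2, mul_one, div_one]
  refine sub_le (add_le (mul_le_left hD ?_) (mul_le_left hvb ?_)) (mul_le_left he hv2.le)
  · exact mul_le_left (sub_le hv2.le norm_one.le) hb2.le
  · exact mul_le_left (add_le hv.le hb.le) hE

end CB

open CB in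
/-- piece CB -/
theorem t_CB : S_CB := by
  intro p _ n M τ B E ⟨hnM, hB0, hE0, hstep, hB, hMn, hEMn⟩
  have hBn : ∀ j ≤ M, ‖(B j : ℚ_[p])‖ = 1 := fun j hj => int_one (hB j hj)
  have hr2 : (p : ℝ)⁻¹ ^ 2 < 1 := (r2_le (p := p)).trans_lt (r_lt (p := p))
  have hV : ∀ j ≤ M, ‖V 0 (τ : ℚ_[p]) (-1) j - (B j : ℚ_[p])‖ ≤ (p : ℝ)⁻¹ ^ 2 := by
    intro j
    induction j with
    | zero =>
      intro _
      have : V 0 (τ : ℚ_[p]) (-1) 0 - (B 0 : ℚ_[p]) = 0 := by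
        rw [hB0]; simp [V]
      rw [this, norm_zero]
      exact sq_nonneg _
    | succ j ih =>
      intro hj
      have h1 := ih (by omega)
      have hb := hBn j (by omega)
      have hv := eq_one (h1.trans_lt hr2) hb
      refine step (e := ((B (j + 1) * B j - (B j ^ 2 + τ * B j + 1) : ℤ) : ℚ_[p])) hv hb h1
        (int_r2 (hstep j (by omega)).1) (by push_cast; ring)
  have hV1 : ∀ j ≤ M, ‖V 0 (τ : ℚ_[p]) (-1) j‖ = 1 := fun j hj =>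
    eq_one ((hV j hj).trans_lt hr2) (hBn j hj)
  have hD : ∀ j ≤ M, ‖Dv (τ : ℚ_[p]) (-1) j - (E j : ℚ_[p])‖ ≤ (p : ℝ)⁻¹ := by
    intro j
    induction j with
    | zero =>
      intro _
      have : Dv (τ : ℚ_[p]) (-1) 0 - (E 0 : ℚ_[p]) = 0 := by
        rw [hE0]; simp [Dv]
      rw [this, norm_zero]
      exact (r_pos (p := p)).le
    | succ j ih =>
      intro hj
      have h1 := ih (by omega)
      have hb := hBn j (by omega)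
      exact stepD (e := ((E (j + 1) * B j ^ 2 - ((B j ^ 2 - 1) * E j + B j ^ 2) : ℤ) : ℚ_[p]))
        (hV1 j (by omega)) hb ((hV j (by omega)).trans (r2_le (p := p)))
        (int_r (hstep j (by omega)).2) h1 (Padic.norm_int_le_one _) (by push_cast; ring)
  refine ⟨hV1, ?_, ?_⟩
  · have h3 : V 0 (τ : ℚ_[p]) (-1) M - V 0 (τ : ℚ_[p]) (-1) n =
        ((V 0 (τ : ℚ_[p]) (-1) M - (B M : ℚ_[p])) - (V 0 (τ : ℚ_[p]) (-1) n - (B n : ℚ_[p]))) +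
          ((B M - B n : ℤ) : ℚ_[p]) := by
      push_cast; ring
    rw [h3]
    exact add_le (sub_le (hV M le_rfl) (hV n hnM.le)) (int_r2 hMn)
  · refine eq_one (b := ((E M - E n : ℤ) : ℚ_[p])) ?_ (int_one hEMn)
    have h3 : Dv (τ : ℚ_[p]) (-1) M - Dv (τ : ℚ_[p]) (-1) n - ((E M - E n : ℤ) : ℚ_[p]) =
        (Dv (τ : ℚ_[p]) (-1) M - (E M : ℚ_[p])) - (Dv (τ : ℚ_[p]) (-1) n - (E n : ℚ_[p])) := by
      push_cast; ring
    rw [h3]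
    exact (sub_le (hD M le_rfl) (hD n hnM.le)).trans_lt (r_lt (p := p))

end Pool.Agent.K6.H14.PG
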