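import Pool.Agent.K6.H14.PG.P_CB

/-!
# Piece CB2: the certificate of the second kind for the orbit of `-1` (adapted from helper1's CB)
-/

set_option autoImplicit false

namespace Pool.Agent.K6.H14.PG

open CB in
/-- piece CB2 -/
theorem t_CB2 : S_CB2 := by
  intro p _ M τ B E ⟨hB0, hE0, hstep, hB, hMn, hEMn⟩
  have hBn : ∀ j < M, ‖(B j : ℚ_[p])‖ = 1 := fun j hj => int_one (hB j hj)
  have hr2 : (p : ℝ)⁻¹ ^ 2 < 1 := (r2_le (p := p)).trans_lt (r_lt (p := p))
  have hV : ∀ j ≤ M, ‖V 0 (τ : ℚ_[p]) (-1) j - (B j : ℚ_[p])‖ ≤ (p : ℝ)⁻¹ ^ 2 := by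
    intro j
    induction j with
    | zero =>
      intro _
      have : V 0 (τ : ℚ_[p]) (-1) 0 - (B 0 : ℚ_[p]) = 0 := by
        rw [hB0]; simp [V]
      rw [this, norm_zero]
      exact sq_nonneg _
    | succ j ih =>
      intro hj
      have h1 := ih (by omega)
      have hb := hBn j (by omega)
      have hv := eq_one (h1.trans_lt hr2) hb
      refine step (e := ((B (j + 1) * B j - (B j ^ 2 + τ * B j + 1) : ℤ) : ℚ_[p])) hv hb h1
        (int_r2 (hstep j (by omega)).1) (by push_cast; ring)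
  have hV1 : ∀ j < M, ‖V 0 (τ : ℚ_[p]) (-1) j‖ = 1 := fun j hj =>
    eq_one ((hV j hj.le).trans_lt hr2) (hBn j hj)
  have hD : ∀ j ≤ M, ‖Dv (τ : ℚ_[p]) (-1) j - (E j : ℚ_[p])‖ ≤ (p : ℝ)⁻¹ := by
    intro j
    induction j with
    | zero =>
      intro _
      have : Dv (τ : ℚ_[p]) (-1) 0 - (E 0 : ℚ_[p]) = 0 := by
        rw [hE0]; simp [Dv]
      rw [this, norm_zero]
      exact (r_pos (p := p)).le
    | succ j ih =>
      intro hj
      have h1 := ih (by omega)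
      have hb := hBn j (by omega)
      exact stepD (e := ((E (j + 1) * B j ^ 2 - ((B j ^ 2 - 1) * E j + B j ^ 2) : ℤ) : ℚ_[p]))
        (hV1 j (by omega)) hb ((hV j (by omega)).trans (r2_le (p := p)))
        (int_r (hstep j (by omega)).2) h1 (Padic.norm_int_le_one _) (by push_cast; ring)
  refine ⟨hV1, ?_, ?_⟩
  · have h3 : V 0 (τ : ℚ_[p]) (-1) M =
        (V 0 (τ : ℚ_[p]) (-1) M - (B M : ℚ_[p])) + ((B M : ℤ) : ℚ_[p]) := by
      ring
    rw [h3]
    exact add_le (hV M le_rfl) (int_r2 hMn)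
  · refine eq_one (b := ((E M : ℤ) : ℚ_[p])) ?_ (int_one hEMn)
    exact (hD M le_rfl).trans_lt (r_lt (p := p))

end Pool.Agent.K6.H14.PG
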