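import Pool.Agent.K6.H14.PG.Stm

/-!
# Piece EST: derivatives of the orbits modulo `p`
-/

set_option autoImplicit false

namespace Pool.Agent.K6.H14.PG

namespace EST

variable {p : ℕ} [Fact p.Prime]

lemma addle {a b : ℚ_[p]} {c : ℝ} (ha : ‖a‖ ≤ c) (hb : ‖b‖ ≤ c) : ‖a + b‖ ≤ c :=
  (Padic.nonarchimedean a b).trans (max_le ha hb)

lemma suble {a b : ℚ_[p]} {c : ℝ} (ha : ‖a‖ ≤ c) (hb : ‖b‖ ≤ c) : ‖a - b‖ ≤ c := by
  rw [sub_eq_add_neg]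
  exact addle ha (by rwa [norm_neg])

lemma mm {a b : ℚ_[p]} {s t : ℝ} (ha : ‖a‖ ≤ s) (hb : ‖b‖ ≤ t) : ‖a * b‖ ≤ s * t := by
  rw [norm_mul]
  exact mul_le_mul ha hb (norm_nonneg b) ((norm_nonneg a).trans ha)

lemma m1 {a b : ℚ_[p]} {t : ℝ} (ha : ‖a‖ ≤ 1) (hb : ‖b‖ ≤ t) : ‖a * b‖ ≤ t := by
  have := mm ha hb
  rwa [one_mul] at this

lemma m2 {a b : ℚ_[p]} {t : ℝ} (ha : ‖a‖ ≤ t) (hb : ‖b‖ ≤ 1) : ‖a * b‖ ≤ t := by
  have := mm ha hb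
  rwa [mul_one] at this

lemma near {a b : ℚ_[p]} {r : ℝ} (hr : r < 1) (hb : ‖b‖ = 1) (hab : ‖a - b‖ ≤ r) : ‖a‖ = 1 := by
  apply le_antisymm
  · have h : a = b + (a - b) := by ring
    rw [h]
    exact addle hb.le (hab.trans hr.le)
  · by_contra h
    push Not at h
    have h1 : ‖b‖ ≤ max ‖a‖ ‖a - b‖ := by
      have h2 : b = a + -(a - b) := by ring
      calc ‖b‖ = ‖a + -(a - b)‖ := by rw [← h2]
        _ ≤ max ‖a‖ ‖-(a - b)‖ := Padic.nonarchimedean _ _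
        _ = max ‖a‖ ‖a - b‖ := by rw [norm_neg]
    have h3 : max ‖a‖ ‖a - b‖ < 1 := max_lt h (hab.trans_lt hr)
    linarith

/-- one step of the induction -/
lemma step {r μ : ℝ} (hr0 : 0 ≤ r) (hr1 : r < 1) (hμ : 0 ≤ μ) {W W' W0 τ τ' τ₀ k k' D E : ℚ_[p]}
    (h0 : ‖W0‖ = 1) (ht0 : ‖τ₀‖ ≤ 1) (hD : ‖D‖ ≤ 1) (hE : ‖E‖ ≤ 1) (hW : ‖W - W0‖ ≤ r)
    (hW' : ‖W' - W0‖ ≤ r) (ht : ‖τ - τ₀‖ ≤ r) (ht' : ‖τ' - τ₀‖ ≤ r) (hk : ‖k‖ ≤ r)
    (hk' : ‖k'‖ ≤ r) (hd : ‖τ - τ'‖ ≤ μ) (he : ‖k - k'‖ ≤ μ)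
    (hn : ‖W - W' - D * (τ - τ') - E * (k - k')‖ ≤ r * μ) :
    ‖Γ k τ W - Γ k' τ' W' - ((1 - 1 / W0 ^ 2) * D + 1) * (τ - τ') -
      ((1 - 1 / W0 ^ 2) * E - τ₀ * H τ₀ W0 ^ 2) * (k - k')‖ ≤ r * μ := by
  have hrμ : r * μ ≤ μ := mul_le_of_le_one_left hμ hr1.le
  have n1 : ‖W‖ = 1 := near hr1 h0 hW
  have n1' : ‖W'‖ = 1 := near hr1 h0 hW'
  have z0 : W0 ≠ 0 := norm_ne_zero_iff.1 (by rw [h0]; exact one_ne_zero)
  have z1 : W ≠ 0 := norm_ne_zero_iff.1 (by rw [n1]; exact one_ne_zero)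
  have z1' : W' ≠ 0 := norm_ne_zero_iff.1 (by rw [n1']; exact one_ne_zero)
  have o1 : ‖(1 : ℚ_[p])‖ ≤ 1 := norm_one.le
  obtain ⟨a0, ha0⟩ : ∃ a, a = W0⁻¹ := ⟨_, rfl⟩
  obtain ⟨a, ha⟩ : ∃ a, a = W⁻¹ := ⟨_, rfl⟩
  obtain ⟨a', ha'⟩ : ∃ a, a = W'⁻¹ := ⟨_, rfl⟩
  have e0 : W0 * a0 = 1 := by rw [ha0]; exact mul_inv_cancel₀ z0
  have e1 : W * a = 1 := by rw [ha]; exact mul_inv_cancel₀ z1
  have e1' : W' * a' = 1 := by rw [ha']; exact mul_inv_cancel₀ z1'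
  have na0 : ‖a0‖ ≤ 1 := by rw [ha0, norm_inv, h0, inv_one]
  have na : ‖a‖ ≤ 1 := by rw [ha, norm_inv, n1, inv_one]
  have na' : ‖a'‖ ≤ 1 := by rw [ha', norm_inv, n1', inv_one]
  have tn : ‖τ‖ ≤ 1 := by
    have h : τ = τ₀ + (τ - τ₀) := by ring
    rw [h]
    exact addle ht0 (ht.trans hr1.le)
  have tn' : ‖τ'‖ ≤ 1 := by
    have h : τ' = τ₀ + (τ' - τ₀) := by ring
    rw [h]
    exact addle ht0 (ht'.trans hr1.le)
  -- the values of `H`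
  obtain ⟨h0', hh0⟩ : ∃ h, h = H τ₀ W0 := ⟨_, rfl⟩
  obtain ⟨h, hh⟩ : ∃ h, h = H τ W := ⟨_, rfl⟩
  obtain ⟨h', hh'⟩ : ∃ h, h = H τ' W' := ⟨_, rfl⟩
  have f0 : h0' = W0 + τ₀ + a0 := by
    rw [hh0, ha0, H]
    field_simp
  have f1 : h = W + τ + a := by
    rw [hh, ha, H]
    field_simp
  have f1' : h' = W' + τ' + a' := by
    rw [hh', ha', H]
    field_simp
  have nh0 : ‖h0'‖ ≤ 1 := by
    rw [f0]
    exact addle (addle h0.le ht0) na0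
  have nh : ‖h‖ ≤ 1 := by
    rw [f1]
    exact addle (addle n1.le tn) na
  have nh' : ‖h'‖ ≤ 1 := by
    rw [f1']
    exact addle (addle n1'.le tn') na'
  have kn : ‖k‖ ≤ 1 := hk.trans hr1.le
  have kn' : ‖k'‖ ≤ 1 := hk'.trans hr1.le
  have da : ‖a - a0‖ ≤ r := by
    have h : a - a0 = -((W - W0) * (a * a0)) := by
      linear_combination a0 * e1 - a * e0
    rw [h, norm_neg]
    exact m2 hW (m1 na na0)
  have da' : ‖a' - a0‖ ≤ r := by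
    have h : a' - a0 = -((W' - W0) * (a' * a0)) := by
      linear_combination a0 * e1' - a' * e0
    rw [h, norm_neg]
    exact m2 hW' (m1 na' na0)
  have dh : ‖h - h0'‖ ≤ r := by
    have h2 : h - h0' = (W - W0) + (τ - τ₀) + (a - a0) := by
      rw [f1, f0]
      ring
    rw [h2]
    exact addle (addle hW ht) da
  have dh' : ‖h' - h0'‖ ≤ r := by
    have h2 : h' - h0' = (W' - W0) + (τ' - τ₀) + (a' - a0) := by
      rw [f1', f0]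
      ring
    rw [h2]
    exact addle (addle hW' ht') da'
  have nν : ‖W - W'‖ ≤ μ := by
    have h2 : W - W' = (W - W' - D * (τ - τ') - E * (k - k')) + D * (τ - τ') + E * (k - k') := by
      ring
    rw [h2]
    exact addle (addle (hn.trans hrμ) (m1 hD hd)) (m1 hE he)
  have nhh : ‖h - h'‖ ≤ μ := by
    have h2 : h - h' = (W - W') * (1 - a * a') + (τ - τ') := by
      rw [f1, f1']
      linear_combination a' * e1 - a * e1'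
    rw [h2]
    exact addle (m2 nν (suble o1 (m1 na na'))) hd
  -- the denominators
  obtain ⟨M, hM⟩ : ∃ m, m = 1 + τ * k * h + k ^ 2 * h ^ 2 := ⟨_, rfl⟩
  obtain ⟨M', hM'⟩ : ∃ m, m = 1 + τ' * k' * h' + k' ^ 2 * h' ^ 2 := ⟨_, rfl⟩
  have dM : ‖M - 1‖ ≤ r := by
    have h2 : M - 1 = k * (τ * h + k * (h * h)) := by
      rw [hM]
      ring
    rw [h2]
    exact m2 hk (addle (m1 tn nh) (m1 kn (m1 nh nh)))
  have dM' : ‖M' - 1‖ ≤ r := by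
    have h2 : M' - 1 = k' * (τ' * h' + k' * (h' * h')) := by
      rw [hM']
      ring
    rw [h2]
    exact m2 hk' (addle (m1 tn' nh') (m1 kn' (m1 nh' nh')))
  have nM : ‖M‖ = 1 := near hr1 norm_one dM
  have nM' : ‖M'‖ = 1 := near hr1 norm_one dM'
  have zM : M ≠ 0 := norm_ne_zero_iff.1 (by rw [nM]; exact one_ne_zero)
  have zM' : M' ≠ 0 := norm_ne_zero_iff.1 (by rw [nM']; exact one_ne_zero)
  have g1 : Γ k τ W = h / M := by rw [Γ, ← hh, hM]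
  have g1' : Γ k' τ' W' = h' / M' := by rw [Γ, ← hh', hM']
  -- the linear part
  obtain ⟨L, hL⟩ : ∃ L, L = ((1 - a0 ^ 2) * D + 1) * (τ - τ') +
    ((1 - a0 ^ 2) * E - τ₀ * h0' ^ 2) * (k - k') := ⟨_, rfl⟩
  have nq : ‖1 - a0 ^ 2‖ ≤ 1 := by
    rw [pow_two]
    exact suble o1 (m1 na0 na0)
  have nL : ‖L‖ ≤ μ := by
    rw [hL]
    refine addle (m1 (addle (m1 nq hD) o1) hd) (m1 (suble (m1 nq hE) (m1 ht0 ?_)) he)
    rw [pow_two]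
    exact m1 nh0 nh0
  have key : ‖h * M' - h' * M - L‖ ≤ r * μ := by
    have h2 : h * M' - h' * M - L =
        (1 - a0 ^ 2) * (W - W' - D * (τ - τ') - E * (k - k')) +
        (a0 * (a0 - a) + a * (a0 - a')) * (W - W') -
        ((h - h0') * (h' * τ) + (h' - h0') * (h0' * τ) + (τ - τ₀) * (h0' * h0')) * (k - k') -
        (k' * (h * h')) * (τ - τ') +
        ((k' * (k' * (h * h'))) * (h' - h) - ((k + k') * (h * (h * h'))) * (k - k')) := by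
      have e : h - h' = (W - W') * (1 - a * a') + (τ - τ') := by
        rw [f1, f1']
        linear_combination a' * e1 - a * e1'
      rw [hL, hM, hM']
      linear_combination e
    rw [h2]
    have t1 : ‖(1 - a0 ^ 2) * (W - W' - D * (τ - τ') - E * (k - k'))‖ ≤ r * μ := m1 nq hn
    have t2 : ‖(a0 * (a0 - a) + a * (a0 - a')) * (W - W')‖ ≤ r * μ := by
      refine mm (addle (m1 na0 ?_) (m1 na ?_)) nν
      · rwa [← norm_neg, neg_sub]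
      · rwa [← norm_neg, neg_sub]
    have t3 : ‖((h - h0') * (h' * τ) + (h' - h0') * (h0' * τ) + (τ - τ₀) * (h0' * h0')) *
        (k - k')‖ ≤ r * μ :=
      mm (addle (addle (m2 dh (m1 nh' tn)) (m2 dh' (m1 nh0 tn))) (m2 ht (m1 nh0 nh0))) he
    have t4 : ‖(k' * (h * h')) * (τ - τ')‖ ≤ r * μ := mm (m2 hk' (m1 nh nh')) hd
    have t5 : ‖(k' * (k' * (h * h'))) * (h' - h)‖ ≤ r * μ := by
      refine mm (m2 hk' (m1 kn' (m1 nh nh'))) ?_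
      rwa [← norm_neg, neg_sub]
    have t6 : ‖((k + k') * (h * (h * h'))) * (k - k')‖ ≤ r * μ :=
      mm (m2 (addle hk hk') (m1 nh (m1 nh nh'))) he
    exact addle (suble (suble (addle t1 t2) t3) t4) (suble t5 t6)
  have nN : ‖h * M' - h' * M‖ ≤ μ := by
    have h2 : h * M' - h' * M = (h * M' - h' * M - L) + L := by ring
    rw [h2]
    exact addle (key.trans hrμ) nL
  have dI : ‖(M * M')⁻¹ - 1‖ ≤ r := by
    have h2 : (M * M')⁻¹ - 1 = -((M * M')⁻¹ * ((M - 1) + (M' - 1) * M)) := by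
      field_simp
      ring
    rw [h2, norm_neg]
    refine m1 ?_ (addle dM (m2 dM' nM.le))
    rw [norm_inv, norm_mul, nM, nM', mul_one, inv_one]
  have fin : Γ k τ W - Γ k' τ' W' - ((1 - 1 / W0 ^ 2) * D + 1) * (τ - τ') -
      ((1 - 1 / W0 ^ 2) * E - τ₀ * H τ₀ W0 ^ 2) * (k - k') =
      (h * M' - h' * M - L) + ((M * M')⁻¹ - 1) * (h * M' - h' * M) := by
    have h3 : (1 : ℚ_[p]) / W0 ^ 2 = a0 ^ 2 := by rw [ha0, one_div, inv_pow]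
    have h4 : h / M - h' / M' = (M * M')⁻¹ * (h * M' - h' * M) := by
      field_simp
    rw [g1, g1', h4, h3, ← hh0, hL]
    ring
  rw [fin]
  exact addle key (mm dI nN)

end EST

open Pool.Agent.K6.H14.PG.EST in
theorem t_EST : S_EST := by
  intro p _ x τ₀ n hx ht0 hV j
  have hp1 : (1 : ℝ) < p := by exact_mod_cast (Fact.out : p.Prime).one_lt
  have hr0 : (0 : ℝ) ≤ (p : ℝ)⁻¹ := by positivity
  have hr1 : (p : ℝ)⁻¹ < 1 := inv_lt_one_of_one_lt₀ hp1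
  have o1 : ‖(1 : ℚ_[p])‖ ≤ 1 := norm_one.le
  induction j with
  | zero =>
    intro _
    refine ⟨by simp [Dv], by simp [Ev], hx.le, fun τ τ' k k' _ _ _ _ => ?_⟩
    have h : V k τ x 0 - V k' τ' x 0 - Dv τ₀ x 0 * (τ - τ') - Ev τ₀ x 0 * (k - k') = 0 := by
      simp [V, Dv, Ev]
    rw [h, norm_zero]
    positivity
  | succ j ih =>
    intro hj
    obtain ⟨hD, hE, h1, hest⟩ := ih (by omega)
    have h0 : ‖V 0 τ₀ x j‖ = 1 := hV j (by omega)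
    have ni : ‖(1 : ℚ_[p]) / V 0 τ₀ x j ^ 2‖ ≤ 1 := by
      rw [norm_div, norm_pow, h0, norm_one]
      norm_num
    have nq : ‖(1 : ℚ_[p]) - 1 / V 0 τ₀ x j ^ 2‖ ≤ 1 := suble o1 ni
    have z0 : V 0 τ₀ x j ≠ 0 := norm_ne_zero_iff.1 (by rw [h0]; exact one_ne_zero)
    have nH : ‖H τ₀ (V 0 τ₀ x j)‖ ≤ 1 := by
      rw [H, norm_div, h0, div_one, pow_two]
      exact addle (addle (m1 h0.le h0.le) (m1 ht0 h0.le)) o1
    have hclose : ∀ τ k : ℚ_[p], ‖τ - τ₀‖ ≤ (p : ℝ)⁻¹ → ‖k‖ ≤ (p : ℝ)⁻¹ →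
        ‖V k τ x j - V 0 τ₀ x j‖ ≤ (p : ℝ)⁻¹ := by
      intro τ k ht hk
      have h2 := hest τ τ₀ k 0 ht (by rw [sub_self, norm_zero]; exact hr0) hk
        (by rw [norm_zero]; exact hr0)
      rw [sub_zero] at h2
      have h3 : (p : ℝ)⁻¹ * max ‖τ - τ₀‖ ‖k‖ ≤ (p : ℝ)⁻¹ :=
        mul_le_of_le_one_right hr0 ((max_le ht hk).trans hr1.le)
      have h4 : V k τ x j - V 0 τ₀ x j =
          (V k τ x j - V 0 τ₀ x j - Dv τ₀ x j * (τ - τ₀) - Ev τ₀ x j * k) +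
            Dv τ₀ x j * (τ - τ₀) + Ev τ₀ x j * k := by ring
      rw [h4]
      exact addle (addle (h2.trans h3) (m1 hD ht)) (m1 hE hk)
    refine ⟨?_, ?_, ?_, ?_⟩
    · show ‖(1 - 1 / V 0 τ₀ x j ^ 2) * Dv τ₀ x j + 1‖ ≤ 1
      exact addle (m1 nq hD) o1
    · show ‖(1 - 1 / V 0 τ₀ x j ^ 2) * Ev τ₀ x j - τ₀ * H τ₀ (V 0 τ₀ x j) ^ 2‖ ≤ 1
      rw [pow_two (H τ₀ (V 0 τ₀ x j))]
      exact suble (m1 nq hE) (m1 ht0 (m1 nH nH))
    · show ‖Γ 0 τ₀ (V 0 τ₀ x j)‖ ≤ 1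
      have h2 : Γ 0 τ₀ (V 0 τ₀ x j) = H τ₀ (V 0 τ₀ x j) := by
        rw [Γ]
        ring
      rw [h2]
      exact nH
    · intro τ τ' k k' ht ht' hk hk'
      exact step hr0 hr1 ((norm_nonneg _).trans (le_max_left _ _)) h0 ht0 hD hE
        (hclose τ k ht hk) (hclose τ' k' ht' hk') ht ht' hk hk' (le_max_left _ _)
        (le_max_right _ _) (hest τ τ' k k' ht ht' hk hk')

end Pool.Agent.K6.H14.PG
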