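import Pool.Agent.K6.H14.PG.Stm
import Pool.Agent.Y955.PF.Iso

/-! # Piece STEP (by helper29), after the one of helper90 -/

set_option autoImplicit false

namespace Pool.Agent.K6.H14.PG

open Pool.Agent.Y955.PF

namespace PSTEP

variable {p : ℕ} [Fact p.Prime]

lemma norm_of_close {x y : ℚ_[p]} (h : ‖x - y‖ < ‖y‖) : ‖x‖ = ‖y‖ := by
  have h1 : ‖(x - y) + y‖ = max ‖x - y‖ ‖y‖ := Padic.add_eq_max_of_ne (ne_of_lt h)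
  rw [sub_add_cancel, max_eq_right h.le] at h1
  exact h1

lemma norm_add_le' {x y : ℚ_[p]} {c : ℝ} (hx : ‖x‖ ≤ c) (hy : ‖y‖ ≤ c) : ‖x + y‖ ≤ c :=
  le_trans (Padic.nonarchimedean x y) (max_le hx hy)

lemma norm_sub_le' {x y : ℚ_[p]} {c : ℝ} (hx : ‖x‖ ≤ c) (hy : ‖y‖ ≤ c) : ‖x - y‖ ≤ c := by
  rw [sub_eq_add_neg]
  exact norm_add_le' hx (by rwa [norm_neg])

lemma norm_add_right {x y : ℚ_[p]} (h : ‖x‖ < ‖y‖) : ‖x + y‖ = ‖y‖ := by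
  rw [Padic.add_eq_max_of_ne (ne_of_lt h), max_eq_right h.le]

lemma pinv_pos : (0 : ℝ) < (p : ℝ)⁻¹ := by
  have := (Fact.out : p.Prime).pos
  positivity

lemma pinv_lt : (p : ℝ)⁻¹ < 1 := by
  have h := (Fact.out : p.Prime).one_lt
  exact inv_lt_one_of_one_lt₀ (by exact_mod_cast h)

lemma nm {x y : ℚ_[p]} {a b : ℝ} (hx : ‖x‖ ≤ a) (hy : ‖y‖ ≤ b) : ‖x * y‖ ≤ a * b := by
  rw [norm_mul]
  exact mul_le_mul hx hy (norm_nonneg _) (le_trans (norm_nonneg _) hx)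

lemma nm1 {x y : ℚ_[p]} {a : ℝ} (hx : ‖x‖ ≤ a) (hy : ‖y‖ ≤ 1) : ‖x * y‖ ≤ a := by
  have := nm hx hy
  rwa [mul_one] at this

lemma nm2 {x y : ℚ_[p]} {a : ℝ} (hx : ‖x‖ ≤ 1) (hy : ‖y‖ ≤ a) : ‖x * y‖ ≤ a := by
  have := nm hx hy
  rwa [one_mul] at this

lemma L1 {c w t t0 : ℚ_[p]} (hc : ‖c‖ = 1) (hw : ‖w - c‖ ≤ (p : ℝ)⁻¹) (ht : ‖t - t0‖ ≤ (p : ℝ)⁻¹)
    (ht0 : ‖t0‖ ≤ 1) (h0 : ‖c ^ 2 + t0 * c + 1‖ ≤ (p : ℝ)⁻¹) : ‖w‖ = 1 ∧ ‖H t w‖ ≤ (p : ℝ)⁻¹ := by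
  have hw1 : ‖w‖ = 1 := by
    rw [← hc]; exact norm_of_close (by rw [hc]; exact lt_of_le_of_lt hw pinv_lt)
  refine ⟨hw1, ?_⟩
  unfold H
  rw [norm_div, hw1, div_one]
  have e : w ^ 2 + t * w + 1 =
      (c ^ 2 + t0 * c + 1) + ((w - c) * (w + c) + ((t - t0) * w + t0 * (w - c))) := by ring
  rw [e]
  exact norm_add_le' h0 (norm_add_le' (nm1 hw (norm_add_le' hw1.le hc.le))
    (norm_add_le' (nm1 ht hw1.le) (nm2 ht0 hw)))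

lemma ne_of_norm_one {w : ℚ_[p]} (h : ‖w‖ = 1) : w ≠ 0 := by
  intro h0; rw [h0, norm_zero] at h; exact zero_ne_one h

lemma L2 {c w w' t t' : ℚ_[p]} {C δ : ℝ} (hc : ‖c‖ = 1) (hc2 : ‖c ^ 2 - 1‖ = 1)
    (hw : ‖w - c‖ ≤ (p : ℝ)⁻¹) (hw' : ‖w' - c‖ ≤ (p : ℝ)⁻¹) (hC : 1 < C) (hδ : 0 ≤ δ)
    (hww : ‖w - w'‖ = C * δ) (htt : ‖t - t'‖ ≤ δ) : ‖H t w - H t' w'‖ = C * δ := by
  have hw1 : ‖w‖ = 1 := by
    rw [← hc]; exact norm_of_close (by rw [hc]; exact lt_of_le_of_lt hw pinv_lt)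
  have hw1' : ‖w'‖ = 1 := by
    rw [← hc]; exact norm_of_close (by rw [hc]; exact lt_of_le_of_lt hw' pinv_lt)
  have hw0 := ne_of_norm_one hw1
  have hw0' := ne_of_norm_one hw1'
  have e : H t w - H t' w' = (t - t') + (w - w') * (w * w' - 1) / (w * w') := by
    unfold H; field_simp; ring
  have h1 : ‖w * w' - 1‖ = 1 := by
    rw [← hc2]
    apply norm_of_close
    rw [hc2]
    have e2 : w * w' - 1 - (c ^ 2 - 1) = (w - c) * w' + c * (w' - c) := by ring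
    rw [e2]
    exact lt_of_le_of_lt (norm_add_le' (nm1 hw hw1'.le) (nm2 hc.le hw')) pinv_lt
  have h2 : ‖(w - w') * (w * w' - 1) / (w * w')‖ = C * δ := by
    rw [norm_div, norm_mul, norm_mul, h1, hw1, hw1', hww]; ring
  rcases hδ.eq_or_lt with h | h
  · have h3 : ‖t - t'‖ = 0 := le_antisymm (by rw [h]; exact htt) (norm_nonneg _)
    rw [e, norm_eq_zero.1 h3, zero_add, h2]
  · rw [e, norm_add_right, h2]
    rw [h2]; nlinarith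

lemma L3d {h k τ : ℚ_[p]} (hh : ‖h‖ ≤ (p : ℝ)⁻¹) (hk : ‖k‖ ≤ (p : ℝ)⁻¹) (hτ : ‖τ‖ ≤ 1) :
    ‖1 + τ * k * h + k ^ 2 * h ^ 2‖ = 1 := by
  have hk1 : ‖k‖ ≤ 1 := hk.trans pinv_lt.le
  have hh1 : ‖h‖ ≤ 1 := hh.trans pinv_lt.le
  have e : 1 + τ * k * h + k ^ 2 * h ^ 2 = (τ * k + k * k * h) * h + 1 := by ring
  rw [e, norm_add_right, norm_one]
  rw [norm_one]
  exact lt_of_le_of_lt (nm2 (norm_add_le' (nm1 hτ hk1) (nm1 (nm1 hk1 hk1) hh1)) hh) pinv_lt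

lemma L3 {h h' k k' τ τ' : ℚ_[p]} {C δ : ℝ} (hh : ‖h‖ ≤ (p : ℝ)⁻¹) (hh' : ‖h'‖ ≤ (p : ℝ)⁻¹)
    (hk : ‖k‖ ≤ (p : ℝ)⁻¹) (hk' : ‖k'‖ ≤ (p : ℝ)⁻¹) (hτ : ‖τ‖ ≤ 1) (hτ' : ‖τ'‖ ≤ 1) (hC : 1 < C)
    (hkk : ‖k - k'‖ = δ) (hττ : ‖τ - τ'‖ ≤ δ) (hhh : ‖h - h'‖ = C * δ) :
    ‖h / (1 + τ * k * h + k ^ 2 * h ^ 2) - h' / (1 + τ' * k' * h' + k' ^ 2 * h' ^ 2)‖ = C * δ := by
  have hk1 : ‖k‖ ≤ 1 := hk.trans pinv_lt.le
  have hk1' : ‖k'‖ ≤ 1 := hk'.trans pinv_lt.le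
  have hh1 : ‖h‖ ≤ 1 := hh.trans pinv_lt.le
  have hh1' : ‖h'‖ ≤ 1 := hh'.trans pinv_lt.le
  have hδ : 0 ≤ δ := hkk ▸ norm_nonneg _
  have hCδ : δ ≤ C * δ := by nlinarith
  have hD := L3d hh hk hτ
  have hD' := L3d hh' hk' hτ'
  have hD0 := ne_of_norm_one hD
  have hD0' := ne_of_norm_one hD'
  have hX : ‖(τ' * k' - τ * k) + (k' ^ 2 * h' - k ^ 2 * h)‖ ≤ C * δ := by
    have e1 : (τ' * k' - τ * k) + (k' ^ 2 * h' - k ^ 2 * h) =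
        ((-(τ - τ')) * k' + τ * (-(k - k'))) +
          ((-(k - k')) * ((k' + k) * h') + (k * k) * (-(h - h'))) := by ring
    rw [e1]
    refine norm_add_le' (norm_add_le' (nm1 ?_ hk1') (nm2 hτ ?_)) (norm_add_le' (nm1 ?_
      (nm1 (norm_add_le' hk1' hk1) hh1')) (nm2 (nm1 hk1 hk1) ?_))
    · rw [norm_neg]; exact hττ.trans hCδ
    · rw [norm_neg, hkk]; exact hCδ
    · rw [norm_neg, hkk]; exact hCδ
    · rw [norm_neg, hhh]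
  have e : h / (1 + τ * k * h + k ^ 2 * h ^ 2) - h' / (1 + τ' * k' * h' + k' ^ 2 * h' ^ 2) =
      (h * h' * ((τ' * k' - τ * k) + (k' ^ 2 * h' - k ^ 2 * h)) + (h - h')) /
        ((1 + τ * k * h + k ^ 2 * h ^ 2) * (1 + τ' * k' * h' + k' ^ 2 * h' ^ 2)) := by
    rw [div_sub_div _ _ hD0 hD0']
    congr 1
    ring
  rw [e, norm_div, norm_mul (1 + τ * k * h + k ^ 2 * h ^ 2), hD, hD', mul_one, div_one]
  rcases hδ.eq_or_lt with h0 | h0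
  · have h3 : ‖(τ' * k' - τ * k) + (k' ^ 2 * h' - k ^ 2 * h)‖ = 0 :=
      le_antisymm (by rw [← h0, mul_zero] at hX; exact hX) (norm_nonneg _)
    rw [norm_eq_zero.1 h3, mul_zero, zero_add, hhh]
  · rw [norm_add_right, hhh]
    rw [hhh]
    have h4 := nm (nm1 hh hh1') hX
    have h5 : 0 < C * δ := by nlinarith
    have h6 : (p : ℝ)⁻¹ * (C * δ) < C * δ := by nlinarith [pinv_lt (p := p)]
    exact lt_of_le_of_lt h4 h6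

lemma Ed {u τ : ℚ_[p]} (hu : ‖u‖ = (p : ℝ)⁻¹) (hτ : ‖τ‖ ≤ 1) : ‖u ^ 2 + τ * u + 1‖ = 1 := by
  have hu1 : ‖u‖ ≤ 1 := hu.le.trans pinv_lt.le
  have e : u ^ 2 + τ * u + 1 = (u + τ) * u + 1 := by ring
  rw [e, norm_add_right, norm_one]
  rw [norm_one]
  exact lt_of_le_of_lt (nm2 (norm_add_le' hu1 hτ) hu.le) pinv_lt

lemma L4 {u u' k k' τ τ' : ℚ_[p]} {C δ : ℝ} (hu : ‖u‖ = (p : ℝ)⁻¹) (hu' : ‖u'‖ = (p : ℝ)⁻¹)
    (hk : ‖k‖ = (p : ℝ)⁻¹) (hk' : ‖k'‖ = (p : ℝ)⁻¹) (hτ : ‖τ‖ ≤ 1) (hτ' : ‖τ'‖ ≤ 1)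
    (hC : (p : ℝ) ≤ C) (hkk : ‖k - k'‖ = δ) (hττ : ‖τ - τ'‖ ≤ δ) (huu : ‖u - u'‖ = C * δ) :
    ‖F k τ u - F k' τ' u'‖ = C * p * δ := by
  have hp0 : (0 : ℝ) < p := by exact_mod_cast (Fact.out : p.Prime).pos
  have hp1 : (1 : ℝ) < p := by exact_mod_cast (Fact.out : p.Prime).one_lt
  have hi0 : (0 : ℝ) < (p : ℝ)⁻¹ := pinv_pos
  have hi1 : (p : ℝ)⁻¹ < 1 := pinv_lt
  have hk1 : ‖k‖ ≤ 1 := hk.le.trans pinv_lt.le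
  have hu1 : ‖u‖ ≤ 1 := hu.le.trans pinv_lt.le
  have hu1' : ‖u'‖ ≤ 1 := hu'.le.trans pinv_lt.le
  have hδ : 0 ≤ δ := hkk ▸ norm_nonneg _
  have hC1 : 1 < C := hp1.trans_le hC
  have hCδ : δ ≤ C * δ := by nlinarith
  have hE := Ed hu hτ
  have hE' := Ed hu' hτ'
  have hE0 := ne_of_norm_one hE
  have hE0' := ne_of_norm_one hE'
  have hk0 : k ≠ 0 := by intro h; rw [h, norm_zero] at hk; exact hi0.ne hk
  have hk0' : k' ≠ 0 := by intro h; rw [h, norm_zero] at hk'; exact hi0.ne hk'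
  have hrC : δ ≤ (p : ℝ)⁻¹ * (C * δ) := by
    have h1 : 1 ≤ (p : ℝ)⁻¹ * C := by
      rw [inv_mul_eq_div, le_div_iff₀ hp0]; linarith
    nlinarith
  have hX : ‖(-(k - k')) * (u' ^ 2 + τ' * u' + 1) + k * ((u' ^ 2 + τ' * u' + 1) -
      (u ^ 2 + τ * u + 1))‖ ≤ (p : ℝ)⁻¹ * (C * δ) := by
    refine norm_add_le' (nm1 ?_ hE'.le) (nm hk.le ?_)
    · rw [norm_neg, hkk]; exact hrC
    · have e1 : (u' ^ 2 + τ' * u' + 1) - (u ^ 2 + τ * u + 1) =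
          (-(u - u')) * ((u' + u) + τ') + (-(τ - τ')) * u := by ring
      rw [e1]
      refine norm_add_le' (nm1 ?_ (norm_add_le' (norm_add_le' hu1' hu1) hτ')) (nm1 ?_ hu1)
      · rw [norm_neg, huu]
      · rw [norm_neg]; exact hττ.trans hCδ
  have e : F k τ u - F k' τ' u' =
      (u' * ((-(k - k')) * (u' ^ 2 + τ' * u' + 1) + k * ((u' ^ 2 + τ' * u' + 1) -
        (u ^ 2 + τ * u + 1))) + (u - u') * (k' * (u' ^ 2 + τ' * u' + 1))) /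
        ((k * (u ^ 2 + τ * u + 1)) * (k' * (u' ^ 2 + τ' * u' + 1))) := by
    unfold F
    rw [div_sub_div _ _ (mul_ne_zero hk0 hE0) (mul_ne_zero hk0' hE0')]
    congr 1
    ring
  have hmain : ‖(u - u') * (k' * (u' ^ 2 + τ' * u' + 1))‖ = (p : ℝ)⁻¹ * (C * δ) := by
    rw [norm_mul, norm_mul, hE', hk', huu]; ring
  have hnum : ‖u' * ((-(k - k')) * (u' ^ 2 + τ' * u' + 1) + k * ((u' ^ 2 + τ' * u' + 1) -
        (u ^ 2 + τ * u + 1))) + (u - u') * (k' * (u' ^ 2 + τ' * u' + 1))‖ =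
        (p : ℝ)⁻¹ * (C * δ) := by
    rcases hδ.eq_or_lt with h0 | h0
    · have h3 : ‖(-(k - k')) * (u' ^ 2 + τ' * u' + 1) + k * ((u' ^ 2 + τ' * u' + 1) -
          (u ^ 2 + τ * u + 1))‖ = 0 :=
        le_antisymm (by rw [← h0, mul_zero, mul_zero] at hX; exact hX) (norm_nonneg _)
      rw [norm_eq_zero.1 h3, mul_zero, zero_add, hmain]
    · rw [norm_add_right, hmain]
      rw [hmain]
      have h4 := nm hu'.le hX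
      have h5 : 0 < (p : ℝ)⁻¹ * (C * δ) := by positivity
      have h6 : (p : ℝ)⁻¹ * ((p : ℝ)⁻¹ * (C * δ)) < (p : ℝ)⁻¹ * (C * δ) := by nlinarith
      exact lt_of_le_of_lt h4 h6
  rw [e, norm_div, hnum, norm_mul (k * (u ^ 2 + τ * u + 1)), norm_mul k, norm_mul k', hE, hE', hk,
    hk']
  field_simp

lemma L5 {u k k₀ c τ : ℚ_[p]} (hu : ‖u‖ = (p : ℝ)⁻¹) (hk : ‖k‖ = (p : ℝ)⁻¹) (hτ : ‖τ‖ ≤ 1)
    (hc : ‖c‖ = 1) (h1 : ‖u - c * k₀‖ ≤ (p : ℝ)⁻¹ * (p : ℝ)⁻¹)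
    (h2 : ‖k - k₀‖ ≤ (p : ℝ)⁻¹ * (p : ℝ)⁻¹) : ‖F k τ u - c‖ ≤ (p : ℝ)⁻¹ := by
  have hi0 : (0 : ℝ) < (p : ℝ)⁻¹ := pinv_pos
  have hu1 : ‖u‖ ≤ 1 := hu.le.trans pinv_lt.le
  have hE := Ed hu hτ
  have hE0 := ne_of_norm_one hE
  have hk0 : k ≠ 0 := by intro h; rw [h, norm_zero] at hk; exact hi0.ne hk
  have e : F k τ u - c = ((u - c * k₀) + (c * (-(k - k₀)) + (-c) * (k * (u * (u + τ))))) /
      (k * (u ^ 2 + τ * u + 1)) := by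
    unfold F
    rw [eq_div_iff (mul_ne_zero hk0 hE0), sub_mul, div_mul_cancel₀ _ (mul_ne_zero hk0 hE0)]
    ring
  rw [e, norm_div, norm_mul k, hE, hk, mul_one, div_le_iff₀ hi0]
  refine norm_add_le' h1 (norm_add_le' (nm2 hc.le ?_) (nm2 ?_ (nm hk.le (nm1 hu.le
    (norm_add_le' hu1 hτ)))))
  · rw [norm_neg]; exact h2
  · rw [norm_neg]; exact hc.le

lemma FH {k τ w : ℚ_[p]} (hk : k ≠ 0) (hw : w ≠ 0) (hh : H τ w ≠ 0) :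
    F k τ w = 1 / (k * H τ w) := by
  have h1 : w ^ 2 + τ * w + 1 ≠ 0 := by
    intro h0; apply hh; unfold H; rw [h0, zero_div]
  unfold F
  rw [div_eq_div_iff (mul_ne_zero hk h1) (mul_ne_zero hk hh)]
  unfold H
  field_simp

lemma FF {k τ h : ℚ_[p]} (hk : k ≠ 0) (hh : h ≠ 0) (_hD : 1 + τ * k * h + k ^ 2 * h ^ 2 ≠ 0) :
    (1 / (k * h)) ^ 2 + τ * (1 / (k * h)) + 1 = (1 + τ * k * h + k ^ 2 * h ^ 2) / (k * h) ^ 2 ∧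
    F k τ (1 / (k * h)) = h / (1 + τ * k * h + k ^ 2 * h ^ 2) := by
  have e : (1 / (k * h)) ^ 2 + τ * (1 / (k * h)) + 1 =
      (1 + τ * k * h + k ^ 2 * h ^ 2) / (k * h) ^ 2 := by
    field_simp
    try ring
  refine ⟨e, ?_⟩
  unfold F
  rw [e]
  field_simp

end PSTEP

open PSTEP in
theorem t_STEP : S_STEP := by
  intro p _ t c C m ht hc hc2 hc0 hC hSt
  obtain ⟨k₀, hk₀, hball⟩ := hSt
  have hp0 : (0 : ℝ) < p := by exact_mod_cast (Fact.out : p.Prime).pos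
  have hp1 : (1 : ℝ) < p := by exact_mod_cast (Fact.out : p.Prime).one_lt
  have hi0 : (0 : ℝ) < (p : ℝ)⁻¹ := pinv_pos
  have hi1 : (p : ℝ)⁻¹ < 1 := pinv_lt
  have hC1 : 1 < C := hp1.trans_le hC
  have hC0 : 0 < C := by linarith
  have hr0 : 0 < (p : ℝ)⁻¹ / C := by positivity
  have hrC : (p : ℝ)⁻¹ / C ≤ (p : ℝ)⁻¹ * (p : ℝ)⁻¹ := by
    rw [div_eq_mul_inv]
    exact mul_le_mul_of_nonneg_left (inv_anti₀ hp0 hC) hi0.le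
  have hr1 : (p : ℝ)⁻¹ / C < (p : ℝ)⁻¹ := lt_of_le_of_lt hrC (by nlinarith)
  have h00 : ‖(0 : ℚ_[p])‖ ≤ (p : ℝ)⁻¹ := by rw [norm_zero]; exact hi0.le
  -- the old ball
  have hkn : ∀ k : ℚ_[p], ‖k - k₀‖ ≤ (p : ℝ)⁻¹ / C → ‖k‖ = (p : ℝ)⁻¹ := by
    intro k hk
    rw [← hk₀]
    refine norm_of_close (lt_of_le_of_lt hk ?_)
    rw [hk₀]; exact hr1
  have hw : ∀ k : ℚ_[p], ‖k - k₀‖ ≤ (p : ℝ)⁻¹ / C → ‖Z k (t k) 1 m‖ = 1 ∧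
      ‖H (t k) (Z k (t k) 1 m)‖ ≤ (p : ℝ)⁻¹ := by
    intro k hk
    refine L1 hc (hball k hk).2.1 ?_ (ht 0 0 h00 h00).1 hc0
    have h1 := (ht k 0 (hkn k hk).le h00).2
    rw [sub_zero, hkn k hk] at h1
    exact h1
  have hhd : ∀ k k' : ℚ_[p], ‖k - k₀‖ ≤ (p : ℝ)⁻¹ / C → ‖k' - k₀‖ ≤ (p : ℝ)⁻¹ / C →
      ‖H (t k) (Z k (t k) 1 m) - H (t k') (Z k' (t k') 1 m)‖ = C * ‖k - k'‖ := by
    intro k k' hk hk'
    exact L2 hc hc2 (hball k hk).2.1 (hball k' hk').2.1 hC1 (norm_nonneg _)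
      ((hball k hk).2.2 k' hk') (ht k k' (hkn k hk).le (hkn k' hk').le).2
  have hgd : ∀ k k' : ℚ_[p], ‖k - k₀‖ ≤ (p : ℝ)⁻¹ / C → ‖k' - k₀‖ ≤ (p : ℝ)⁻¹ / C →
      ‖Γ k (t k) (Z k (t k) 1 m) - Γ k' (t k') (Z k' (t k') 1 m)‖ = C * ‖k - k'‖ := by
    intro k k' hk hk'
    unfold Γ
    exact L3 (hw k hk).2 (hw k' hk').2 (hkn k hk).le (hkn k' hk').le
      (ht k k' (hkn k hk).le (hkn k' hk').le).1 (ht k' k (hkn k' hk').le (hkn k hk).le).1 hC1 rfl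
      (ht k k' (hkn k hk).le (hkn k' hk').le).2 (hhd k k' hk hk')
  have hk₀b : ‖k₀ - k₀‖ ≤ (p : ℝ)⁻¹ / C := by rw [sub_self, norm_zero]; exact hr0.le
  have hu0 : ‖Γ k₀ (t k₀) (Z k₀ (t k₀) 1 m)‖ ≤ (p : ℝ)⁻¹ := by
    unfold Γ
    rw [norm_div, L3d (hw k₀ hk₀b).2 hk₀.le (ht k₀ k₀ hk₀.le hk₀.le).1, div_one]
    exact (hw k₀ hk₀b).2
  obtain ⟨k₁, hk₁, hu₁⟩ := iso p (fun k => Γ k (t k) (Z k (t k) 1 m)) k₀ ((p : ℝ)⁻¹ / C) C hr0 hC0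
    (fun x y hx hy => hgd x y hx hy) (c * k₀) (by
      have h2 : C * ((p : ℝ)⁻¹ / C) = (p : ℝ)⁻¹ := by field_simp
      rw [h2]
      exact norm_sub_le' (nm2 hc.le hk₀.le) hu0)
  change Γ k₁ (t k₁) (Z k₁ (t k₁) 1 m) = c * k₀ at hu₁
  have hrad : (p : ℝ)⁻¹ / (C * p) = (p : ℝ)⁻¹ / C * (p : ℝ)⁻¹ := by field_simp
  have hin : ∀ k : ℚ_[p], ‖k - k₁‖ ≤ (p : ℝ)⁻¹ / (C * p) → ‖k - k₀‖ ≤ (p : ℝ)⁻¹ / C := by
    intro k hk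
    rw [hrad] at hk
    have h1 : ‖k - k₁‖ ≤ (p : ℝ)⁻¹ / C := le_trans hk (by nlinarith)
    have e : k - k₀ = (k - k₁) + (k₁ - k₀) := by ring
    rw [e]
    exact norm_add_le' h1 hk₁
  have hck : ‖c * k₀‖ = (p : ℝ)⁻¹ := by rw [norm_mul, hc, one_mul, hk₀]
  have hu : ∀ k : ℚ_[p], ‖k - k₁‖ ≤ (p : ℝ)⁻¹ / (C * p) →
      ‖Γ k (t k) (Z k (t k) 1 m) - c * k₀‖ ≤ (p : ℝ)⁻¹ * (p : ℝ)⁻¹ := by
    intro k hk
    rw [← hu₁, hgd k k₁ (hin k hk) hk₁]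
    rw [hrad] at hk
    calc C * ‖k - k₁‖ ≤ C * ((p : ℝ)⁻¹ / C * (p : ℝ)⁻¹) := mul_le_mul_of_nonneg_left hk hC0.le
      _ = (p : ℝ)⁻¹ * (p : ℝ)⁻¹ := by field_simp
  have hun : ∀ k : ℚ_[p], ‖k - k₁‖ ≤ (p : ℝ)⁻¹ / (C * p) →
      ‖Γ k (t k) (Z k (t k) 1 m)‖ = (p : ℝ)⁻¹ := by
    intro k hk
    rw [← hck]
    refine norm_of_close (lt_of_le_of_lt (hu k hk) ?_)
    rw [hck]; nlinarith
  -- the three steps
  have hst : ∀ k : ℚ_[p], ‖k - k₁‖ ≤ (p : ℝ)⁻¹ / (C * p) →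
      Reg (t k) (Z k (t k) 1 m) ∧ Reg (t k) (Z k (t k) 1 (m + 1)) ∧
      Reg (t k) (Z k (t k) 1 (m + 2)) ∧ Z k (t k) 1 (m + 2) = Γ k (t k) (Z k (t k) 1 m) := by
    intro k hk
    have hkn' := hkn k (hin k hk)
    have hk0 : k ≠ 0 := by intro h; rw [h, norm_zero] at hkn'; exact hi0.ne hkn'
    have hτ := (ht k k hkn'.le hkn'.le).1
    obtain ⟨hw1, hh1⟩ := hw k (hin k hk)
    have hw0 := ne_of_norm_one hw1
    have hD := L3d hh1 hkn'.le hτ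
    have hD0 := ne_of_norm_one hD
    have hΓn := hun k hk
    have hΓ0 : Γ k (t k) (Z k (t k) 1 m) ≠ 0 := by
      intro h; rw [h, norm_zero] at hΓn; exact hi0.ne hΓn
    have hh0 : H (t k) (Z k (t k) 1 m) ≠ 0 := by
      intro h; apply hΓ0; unfold Γ; rw [h, zero_div]
    have e1 : Z k (t k) 1 (m + 1) = 1 / (k * H (t k) (Z k (t k) 1 m)) := FH hk0 hw0 hh0
    obtain ⟨e3, e4⟩ := FF (τ := t k) hk0 hh0 hD0
    have e2 : Z k (t k) 1 (m + 2) = Γ k (t k) (Z k (t k) 1 m) := by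
      change F k (t k) (Z k (t k) 1 (m + 1)) = _
      rw [e1, e4]
      rfl
    refine ⟨⟨hw0, ?_⟩, ⟨?_, ?_⟩, ⟨?_, ?_⟩, e2⟩
    · intro h; apply hh0; unfold H; rw [h, zero_div]
    · rw [e1]; exact one_div_ne_zero (mul_ne_zero hk0 hh0)
    · rw [e1, e3]; exact div_ne_zero hD0 (pow_ne_zero _ (mul_ne_zero hk0 hh0))
    · rw [e2]; exact hΓ0
    · rw [e2]; exact ne_of_norm_one (Ed hΓn hτ)
  refine ⟨k₁, hkn k₁ hk₁, fun k hk => ?_⟩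
  obtain ⟨r0, r1, r2, e2⟩ := hst k hk
  have hkn' := hkn k (hin k hk)
  have hk0 : k ≠ 0 := by intro h; rw [h, norm_zero] at hkn'; exact hi0.ne hkn'
  have hτ := (ht k k hkn'.le hkn'.le).1
  have hΓn := hun k hk
  have hE := Ed hΓn hτ
  have hE0 := ne_of_norm_one hE
  have e5 : Z k (t k) 1 (m + 3) = F k (t k) (Γ k (t k) (Z k (t k) 1 m)) := by
    change F k (t k) (Z k (t k) 1 (m + 2)) = _
    rw [e2]
  refine ⟨?_, ?_, ?_⟩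
  · intro i hi
    rcases lt_or_ge i m with h | h
    · exact (hball k (hin k hk)).1 i h
    · have : i = m ∨ i = m + 1 ∨ i = m + 2 := by omega
      rcases this with rfl | rfl | rfl
      · exact r0
      · exact r1
      · exact r2
  · rw [e5]
    exact L5 hΓn hkn' hτ hc (hu k hk) ((hin k hk).trans hrC)
  · intro k' hk'
    obtain ⟨r0', r1', r2', e2'⟩ := hst k' hk'
    have hkn'' := hkn k' (hin k' hk')
    have hτ' := (ht k' k' hkn''.le hkn''.le).1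
    have hΓn' := hun k' hk'
    have e5' : Z k' (t k') 1 (m + 3) = F k' (t k') (Γ k' (t k') (Z k' (t k') 1 m)) := by
      change F k' (t k') (Z k' (t k') 1 (m + 2)) = _
      rw [e2']
    rw [e5, e5']
    exact L4 hΓn hΓn' hkn' hkn'' hτ hτ' hC rfl (ht k k' hkn'.le hkn''.le).2
      (hgd k k' (hin k hk) (hin k' hk'))

end Pool.Agent.K6.H14.PG
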